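import Pool.Agent.Q91.PT.Stm4
import Pool.Agent.Q262.PT.MGF

/-!
# Project PT, job EN2: an entropy inequality for squares
-/

set_option autoImplicit false

namespace Pool.Agent.Q251.PT.EN2

open Finset Pool.Agent.Q91.PT MeasureTheory
open scoped Classical

theorem gint (a : ℝ) : ∫ x : ℝ, Real.exp (-1 * x ^ 2 + 2 * x * a) = Real.exp (a ^ 2) * Real.sqrt Real.pi := by
  have h1 : ∀ x : ℝ, Real.exp (-1 * x ^ 2 + 2 * x * a) = Real.exp (a ^ 2) * Real.exp (-1 * (x - a) ^ 2) := by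
    intro x
    rw [← Real.exp_add]
    congr 1
    ring
  simp_rw [h1]
  rw [integral_const_mul, integral_sub_right_eq_self (fun x : ℝ => Real.exp (-1 * x ^ 2)) a,
    integral_gaussian]
  simp

theorem gintble (a : ℝ) : Integrable (fun x : ℝ => Real.exp (-1 * x ^ 2 + 2 * x * a)) := by
  have h1 : (fun x : ℝ => Real.exp (-1 * x ^ 2 + 2 * x * a)) =
      fun x : ℝ => Real.exp (a ^ 2) * Real.exp (-1 * (x - a) ^ 2) := by
    funext x
    rw [← Real.exp_add]
    congr 1
    ring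
  rw [h1]
  exact ((integrable_exp_neg_mul_sq one_pos).comp_sub_right a).const_mul _

theorem moment {α : Type} (X : Finset α) (s : α → ℝ) (n : ℕ) (hn : 1 ≤ n)
    (h : ∀ θ : ℝ, ∑ x ∈ X, Real.exp (θ * s x) ≤ X.card * Real.exp (θ ^ 2 * n / 2)) :
    ∑ x ∈ X, Real.exp (s x ^ 2 / (8 * n)) ≤ 2 * X.card := by
  have hn0 : (0 : ℝ) < n := by exact_mod_cast hn
  set r : ℝ := Real.sqrt (8 * n) with hr
  have hr2 : r ^ 2 = 8 * n := Real.sq_sqrt (by positivity)
  have hr0 : 0 < r := Real.sqrt_pos.2 (by positivity)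
  have hpi : 0 < Real.sqrt Real.pi := Real.sqrt_pos.2 Real.pi_pos
  have e1 : (∑ x ∈ X, Real.exp (s x ^ 2 / (8 * n))) * Real.sqrt Real.pi =
      ∫ y : ℝ, ∑ x ∈ X, Real.exp (-1 * y ^ 2 + 2 * y * (s x / r)) := by
    rw [integral_finsetSum _ (fun x _ => gintble _), sum_mul]
    refine sum_congr rfl fun x _ => ?_
    rw [gint, div_pow, hr2]
  have e2 : ∫ y : ℝ, ∑ x ∈ X, Real.exp (-1 * y ^ 2 + 2 * y * (s x / r)) ≤
      ∫ y : ℝ, X.card * Real.exp (-(3 / 4) * y ^ 2) := by
    refine integral_mono (integrable_finsetSum _ fun x _ => gintble _)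
      ((integrable_exp_neg_mul_sq (by norm_num)).const_mul _) ?_
    intro y
    have h1 := h (2 * y / r)
    have h2 : (2 * y / r) ^ 2 * n / 2 = y ^ 2 / 4 := by
      rw [div_pow, hr2]
      field_simp
      ring
    rw [h2] at h1
    have h3 : ∑ x ∈ X, Real.exp (-1 * y ^ 2 + 2 * y * (s x / r)) =
        Real.exp (-1 * y ^ 2) * ∑ x ∈ X, Real.exp (2 * y / r * s x) := by
      rw [mul_sum]
      refine sum_congr rfl fun x _ => ?_
      rw [← Real.exp_add]
      congr 1
      ring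
    show ∑ x ∈ X, Real.exp (-1 * y ^ 2 + 2 * y * (s x / r)) ≤ X.card * Real.exp (-(3 / 4) * y ^ 2)
    rw [h3]
    calc Real.exp (-1 * y ^ 2) * ∑ x ∈ X, Real.exp (2 * y / r * s x)
        ≤ Real.exp (-1 * y ^ 2) * (X.card * Real.exp (y ^ 2 / 4)) :=
          mul_le_mul_of_nonneg_left h1 (Real.exp_pos _).le
      _ = X.card * (Real.exp (-1 * y ^ 2) * Real.exp (y ^ 2 / 4)) := by ring
      _ = X.card * Real.exp (-(3 / 4) * y ^ 2) := by
          rw [← Real.exp_add]
          congr 2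
          ring
  rw [integral_const_mul, integral_gaussian] at e2
  have h5 : Real.sqrt (Real.pi / (3 / 4)) ≤ 2 * Real.sqrt Real.pi := by
    apply Real.sqrt_le_iff.2
    constructor
    · positivity
    · rw [mul_pow, Real.sq_sqrt Real.pi_pos.le]
      have := Real.pi_pos
      linarith
  have h6 : (∑ x ∈ X, Real.exp (s x ^ 2 / (8 * n))) * Real.sqrt Real.pi ≤
      (2 * X.card) * Real.sqrt Real.pi := by
    rw [e1]
    refine e2.trans ?_
    calc (X.card : ℝ) * Real.sqrt (Real.pi / (3 / 4)) ≤ X.card * (2 * Real.sqrt Real.pi) :=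
          mul_le_mul_of_nonneg_left h5 (Nat.cast_nonneg _)
      _ = (2 * X.card) * Real.sqrt Real.pi := by ring
  exact le_of_mul_le_mul_right h6 hpi

theorem t (habs : S_abs) : S_en2 := by
  intro α X F g b A hF n hn hK Y hYX hY
  have hm := fun θ : ℝ => (Pool.Agent.Q262.PT.MGF.t habs α X F g b A hF).1 n θ hK
  have h0 := moment X (fun x => ((F x).card : ℝ) - 2 * Dn F b x) n hn hm
  have hn0 : (0 : ℝ) < n := by exact_mod_cast hn
  have hN0 : 0 < (Y.card : ℝ) := by exact_mod_cast Finset.card_pos.mpr hY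
  have hNM : (Y.card : ℝ) ≤ X.card := by exact_mod_cast Finset.card_le_card hYX
  set s : α → ℝ := fun x => ((F x).card : ℝ) - 2 * Dn F b x with hs
  set T : ℝ := (∑ x ∈ Y, s x ^ 2 / (8 * n)) / Y.card with hT
  have hsum : ∑ x ∈ Y, s x ^ 2 / (8 * n) = Y.card * T := by
    rw [hT]; field_simp
  have h1 : Real.exp T * Y.card ≤ ∑ x ∈ Y, Real.exp (s x ^ 2 / (8 * n)) := by
    have h3 : ∀ x ∈ Y, Real.exp T * (1 + (s x ^ 2 / (8 * n) - T)) ≤ Real.exp (s x ^ 2 / (8 * n)) := by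
      intro x _
      have h4 := Real.add_one_le_exp (s x ^ 2 / (8 * n) - T)
      calc Real.exp T * (1 + (s x ^ 2 / (8 * n) - T))
          ≤ Real.exp T * Real.exp (s x ^ 2 / (8 * n) - T) :=
            mul_le_mul_of_nonneg_left (by linarith) (Real.exp_pos _).le
        _ = Real.exp (s x ^ 2 / (8 * n)) := by rw [← Real.exp_add]; congr 1; ring
    refine le_trans (le_of_eq ?_) (Finset.sum_le_sum h3)
    rw [← Finset.mul_sum, Finset.sum_add_distrib, Finset.sum_sub_distrib, hsum]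
    simp only [Finset.sum_const, nsmul_eq_mul, mul_one]
    ring
  have h2 : ∑ x ∈ Y, Real.exp (s x ^ 2 / (8 * n)) ≤ ∑ x ∈ X, Real.exp (s x ^ 2 / (8 * n)) :=
    Finset.sum_le_sum_of_subset_of_nonneg hYX (fun x _ _ => (Real.exp_pos _).le)
  have h3 : Real.exp T * Y.card ≤ 2 * X.card := h1.trans (h2.trans h0)
  have hq : 1 ≤ (X.card : ℝ) / Y.card := by
    rw [le_div_iff₀ hN0]; linarith
  have h4 : Real.exp T ≤ 2 * ((X.card : ℝ) / Y.card) := by
    rw [← mul_div_assoc, le_div_iff₀ hN0]; exact h3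
  have h5 : T ≤ Real.log (2 * ((X.card : ℝ) / Y.card)) := by
    rw [Real.le_log_iff_exp_le (by linarith)]
    exact h4
  rw [Real.log_mul (by norm_num) (by linarith)] at h5
  have h6 : Real.log 2 ≤ 1 := by
    have := Real.log_two_lt_d9
    linarith
  have h7 : T ≤ 1 + Real.log ((X.card : ℝ) / Y.card) := by linarith
  have h8 : ∑ x ∈ Y, s x ^ 2 = 8 * n * (Y.card * T) := by
    have h9 : (8 * n : ℝ) ≠ 0 := mul_ne_zero (by norm_num) hn0.ne'
    rw [← hsum, mul_sum]
    refine sum_congr rfl fun x _ => ?_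
    exact (mul_div_cancel₀ _ h9).symm
  rw [h8]
  calc 8 * n * (Y.card * T) = 8 * n * Y.card * T := by ring
    _ ≤ 8 * n * Y.card * (1 + Real.log ((X.card : ℝ) / Y.card)) :=
      mul_le_mul_of_nonneg_left h7 (mul_nonneg (mul_nonneg (by norm_num) hn0.le) hN0.le)

end Pool.Agent.Q251.PT.EN2
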