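import Pool.Agent.Q91.PT.Stm4
import Pool.Agent.H739K.RATIO

/-!
# Project PT, job TR2: Kesten's counting of insertions
-/

set_option autoImplicit false

namespace Pool.Agent.Q251.PT.TR2

open Finset Pool.Agent.H976R2 Pool.Agent.H739K Pool.Agent.Q91.PT
open scoped Classical

noncomputable section

/-- the exact sum over insertions -/
def Sx (n : ℕ) (ψ : List Dir → ℝ) : ℝ :=
  ∑ w ∈ KP n, ∑ p ∈ adm w, ψ (ins w p.1 p.2) * (1 / bt (ins w p.1 p.2))

theorem mem_KP_ins {n : ℕ} {w : List Dir} (hw : w ∈ KP n) {p : ℕ × Dir} (hp : p ∈ adm w) :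
    ins w p.1 p.2 ∈ KP (n + 2) := by
  obtain ⟨hl, hs, hc⟩ := RATIO.mem_KP.mp hw
  obtain ⟨i, e⟩ := p
  obtain ⟨hi, -, h3⟩ := mem_adm.mp hp
  refine RATIO.mem_KP.mpr ⟨?_, h3, ?_⟩
  · show (ins w i e).length = n + 2
    rw [length_ins e hi, hl]
  · show sq (ins w i e) = 1
    rw [sq_ins e hi, hc]

theorem Sx_eq (n : ℕ) (ψ : List Dir → ℝ) :
    Sx n ψ = ∑ w' ∈ KP (n + 2), ψ w' * ((bc w' : ℝ) / bt w') := by
  have e1 : ∑ w' ∈ SW (n + 2), (if sq w' = 1 then ψ w' else 0) * ((bc w' : ℝ) / bt w') =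
      ∑ w ∈ SW n, ∑ p ∈ adm w, (if sq (ins w p.1 p.2) = 1 then ψ (ins w p.1 p.2) else 0) *
        (1 / bt (ins w p.1 p.2)) := by
    rw [sum_ins n (fun _ w' => (if sq w' = 1 then ψ w' else 0) * (1 / bt w'))]
    refine Finset.sum_congr rfl (fun w' _ => ?_)
    rw [Finset.sum_const, nsmul_eq_mul]
    unfold bc; ring
  have e2 : ∑ w' ∈ KP (n + 2), ψ w' * ((bc w' : ℝ) / bt w') =
      ∑ w' ∈ SW (n + 2), (if sq w' = 1 then ψ w' else 0) * ((bc w' : ℝ) / bt w') := by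
    unfold KP
    rw [Finset.sum_filter]
    refine Finset.sum_congr rfl (fun w' _ => ?_)
    split_ifs <;> simp
  rw [e2, e1]
  unfold Sx KP
  rw [Finset.sum_filter]
  refine Finset.sum_congr rfl (fun w _ => ?_)
  split_ifs with hc
  · refine Finset.sum_congr rfl (fun p hp => ?_)
    have hi := (mem_adm.mp (show (p.1, p.2) ∈ adm w from hp)).1
    rw [sq_ins p.2 hi, if_pos hc]
  · symm
    refine Finset.sum_eq_zero (fun p hp => ?_)
    have hi := (mem_adm.mp (show (p.1, p.2) ∈ adm w from hp)).1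
    rw [sq_ins p.2 hi, if_neg hc, zero_mul]

/-- counting, with the error from the words with few bumps -/
theorem cnt (n : ℕ) (ψ : List Dir → ℝ) (B : ℝ) (hB : 0 ≤ B)
    (h : ∀ w ∈ KP (n + 2), 0 ≤ ψ w ∧ ψ w ≤ B) :
    0 ≤ mm ψ (n + 2) - Sx n ψ ∧ mm ψ (n + 2) - Sx n ψ ≤ B * (few (n + 2)).card := by
  have hterm : ∀ w ∈ KP (n + 2), 0 ≤ ψ w - ψ w * ((bc w : ℝ) / bt w) ∧
      ψ w - ψ w * ((bc w : ℝ) / bt w) ≤ if w ∈ few (n + 2) then B else 0 := by
    intro w hw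
    obtain ⟨h0, h1⟩ := h w hw
    obtain ⟨hl, hs, hc⟩ := RATIO.mem_KP.mp hw
    have p2 := bt_pos (w := w) (by omega)
    have h3 : (bc w : ℝ) / bt w ≤ 1 := by
      rw [div_le_one p2]; exact bc_le_bt w
    have h4 : 0 ≤ (bc w : ℝ) / bt w := by positivity
    have e : ψ w - ψ w * ((bc w : ℝ) / bt w) = ψ w * (1 - (bc w : ℝ) / bt w) := by ring
    refine ⟨by rw [e]; exact mul_nonneg h0 (by linarith), ?_⟩
    split_ifs with hf
    · rw [e]
      calc ψ w * (1 - (bc w : ℝ) / bt w) ≤ ψ w * 1 := by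
            apply mul_le_mul_of_nonneg_left _ h0
            linarith
        _ ≤ B := by linarith
    · have hf' : ¬ (bc w : ℝ) < ((n + 2 : ℕ) : ℝ) / 2000 := by
        intro hcon
        exact hf (Finset.mem_filter.mpr ⟨mem_SW.mpr ⟨hl, hs⟩, hcon⟩)
      push Not at hf'
      have h5 : bt w = bc w := by
        unfold bt; rw [hl]; exact max_eq_left hf'
      have h6 : (0 : ℝ) < bc w := by rw [← h5]; exact p2
      rw [h5, div_self h6.ne']
      simp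
  have e : mm ψ (n + 2) - Sx n ψ = ∑ w ∈ KP (n + 2), (ψ w - ψ w * ((bc w : ℝ) / bt w)) := by
    rw [Sx_eq, Finset.sum_sub_distrib]
    rfl
  rw [e]
  refine ⟨Finset.sum_nonneg fun w hw => (hterm w hw).1, ?_⟩
  refine (Finset.sum_le_sum fun w hw => (hterm w hw).2).trans ?_
  rw [← Finset.sum_filter, Finset.sum_const, nsmul_eq_mul]
  rw [mul_comm]
  apply mul_le_mul_of_nonneg_left _ hB
  exact_mod_cast Finset.card_le_card (fun x hx => (Finset.mem_filter.mp hx).2)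

/-- bounds for `1/bt` after an insertion -/
theorem inv_ins {n : ℕ} (hn : 1 ≤ n) {w : List Dir} (hw : w ∈ KP n) {p : ℕ × Dir} (hp : p ∈ adm w) :
    0 ≤ 1 / bt (ins w p.1 p.2) ∧ 1 / bt (ins w p.1 p.2) ≤ 2000 / (n : ℝ) ∧
    0 ≤ 1 / bt w ∧ 1 / bt w ≤ 2000 / (n : ℝ) ∧
    |1 / bt (ins w p.1 p.2) - 1 / bt w| ≤ 20000000 / (n : ℝ) ^ 2 := by
  obtain ⟨hl, hs, hc⟩ := RATIO.mem_KP.mp hw
  obtain ⟨hl2, hs2, hc2⟩ := RATIO.mem_KP.mp (mem_KP_ins hw hp)
  have hi := (mem_adm.mp (show (p.1, p.2) ∈ adm w from hp)).1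
  have hn' : (1 : ℝ) ≤ n := by exact_mod_cast hn
  have h1 := inv_bt_le (w := w) (by omega)
  have h2 := inv_bt_le (w := ins w p.1 p.2) (by omega)
  have h3 := inv_bt_ins p.2 hi
  have h4 := bt_pos (w := w) (by omega)
  have h5 := bt_pos (w := ins w p.1 p.2) (by omega)
  rw [hl] at h1 h3
  rw [hl2] at h2
  refine ⟨by positivity, h2.trans ?_, by positivity, h1, h3⟩
  apply div_le_div_of_nonneg_left (by norm_num) (by linarith)
  push_cast
  linarith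

/-- replace `1/bt` of the longer word by `1/bt` of the shorter one -/
theorem rep1 {n : ℕ} (hn : 1 ≤ n) (ψ : List Dir → ℝ) (h : ∀ w ∈ KP (n + 2), 0 ≤ ψ w) :
    |Sx n ψ - ∑ w ∈ KP n, T1 ψ w / bt w| ≤ 20000000 / (n : ℝ) ^ 2 * ∑ w ∈ KP n, T1 ψ w := by
  unfold Sx
  rw [← Finset.sum_sub_distrib, Finset.mul_sum]
  refine (Finset.abs_sum_le_sum_abs _ _).trans (Finset.sum_le_sum fun w hw => ?_)
  unfold T1
  rw [Finset.sum_div, ← Finset.sum_sub_distrib, Finset.mul_sum]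
  refine (Finset.abs_sum_le_sum_abs _ _).trans (Finset.sum_le_sum fun p hp => ?_)
  obtain ⟨-, -, -, -, h5⟩ := inv_ins hn hw hp
  have h0 := h _ (mem_KP_ins hw hp)
  have e : ψ (ins w p.1 p.2) * (1 / bt (ins w p.1 p.2)) - ψ (ins w p.1 p.2) / bt w =
      ψ (ins w p.1 p.2) * (1 / bt (ins w p.1 p.2) - 1 / bt w) := by ring
  rw [e, abs_mul, abs_of_nonneg h0, mul_comm]
  exact mul_le_mul_of_nonneg_right h5 h0

/-- upper bound for the exact sum -/
theorem Sx_le {n : ℕ} (hn : 1 ≤ n) (ψ : List Dir → ℝ) (h : ∀ w ∈ KP (n + 2), 0 ≤ ψ w) :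
    Sx n ψ ≤ 2000 / (n : ℝ) * ∑ w ∈ KP n, T1 ψ w := by
  unfold Sx
  rw [Finset.mul_sum]
  refine Finset.sum_le_sum fun w hw => ?_
  unfold T1
  rw [Finset.mul_sum]
  refine Finset.sum_le_sum fun p hp => ?_
  obtain ⟨-, h2, -, -, -⟩ := inv_ins hn hw hp
  have h0 := h _ (mem_KP_ins hw hp)
  rw [mul_comm]
  exact mul_le_mul_of_nonneg_right h2 h0

/-- replace the square of `1/bt` of the longer word -/
theorem rep2 {n : ℕ} (hn : 1 ≤ n) (ψ : List Dir → ℝ) (h : ∀ w ∈ KP (n + 2), 0 ≤ ψ w) :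
    |Sx n (fun w => ψ w * (1 / bt w)) - ∑ w ∈ KP n, T1 ψ w / bt w ^ 2| ≤
      80000000000 / (n : ℝ) ^ 3 * ∑ w ∈ KP n, T1 ψ w := by
  have hn' : (1 : ℝ) ≤ n := by exact_mod_cast hn
  unfold Sx
  rw [← Finset.sum_sub_distrib, Finset.mul_sum]
  refine (Finset.abs_sum_le_sum_abs _ _).trans (Finset.sum_le_sum fun w hw => ?_)
  unfold T1
  rw [Finset.sum_div, ← Finset.sum_sub_distrib, Finset.mul_sum]
  refine (Finset.abs_sum_le_sum_abs _ _).trans (Finset.sum_le_sum fun p hp => ?_)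
  obtain ⟨h1, h2, h3, h4, h5⟩ := inv_ins hn hw hp
  have h0 := h _ (mem_KP_ins hw hp)
  have e : ψ (ins w p.1 p.2) * (1 / bt (ins w p.1 p.2)) * (1 / bt (ins w p.1 p.2)) -
      ψ (ins w p.1 p.2) / bt w ^ 2 =
      ψ (ins w p.1 p.2) * ((1 / bt (ins w p.1 p.2) - 1 / bt w) *
        (1 / bt (ins w p.1 p.2) + 1 / bt w)) := by ring
  rw [e, abs_mul, abs_of_nonneg h0, mul_comm, abs_mul]
  refine mul_le_mul_of_nonneg_right ?_ h0
  have h6 : |1 / bt (ins w p.1 p.2) + 1 / bt w| ≤ 4000 / (n : ℝ) := by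
    rw [abs_of_nonneg (by linarith)]
    have e2 : 4000 / (n : ℝ) = 2000 / (n : ℝ) + 2000 / (n : ℝ) := by ring
    rw [e2]
    exact add_le_add h2 h4
  calc |1 / bt (ins w p.1 p.2) - 1 / bt w| * |1 / bt (ins w p.1 p.2) + 1 / bt w|
      ≤ (20000000 / (n : ℝ) ^ 2) * (4000 / (n : ℝ)) :=
        mul_le_mul h5 h6 (abs_nonneg _) (by positivity)
    _ = 80000000000 / (n : ℝ) ^ 3 := by
        field_simp
        norm_num

theorem T1_bd {m : ℕ} (φ : List Dir → ℝ) (h : ∀ w ∈ KP (m + 2), 0 ≤ φ w ∧ φ w ≤ 1)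
    {w : List Dir} (hw : w ∈ KP m) : 0 ≤ T1 φ w ∧ T1 φ w ≤ 2 * m := by
  obtain ⟨hl, hs, hc⟩ := RATIO.mem_KP.mp hw
  unfold T1
  refine ⟨Finset.sum_nonneg fun p hp => (h _ (mem_KP_ins hw hp)).1, ?_⟩
  refine (Finset.sum_le_sum fun p hp => (h _ (mem_KP_ins hw hp)).2).trans ?_
  have h6 : (AA w : ℝ) ≤ 2 * w.length := by exact_mod_cast AA_le w
  rw [hl] at h6
  rw [Finset.sum_const, nsmul_eq_mul, mul_one]
  exact h6

theorem t : S_tr2 := by
  refine ⟨1000000000000, by norm_num, fun n hn φ hφ => ?_⟩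
  have hn' : (3 : ℝ) ≤ n := by exact_mod_cast hn
  have hn0 : (0 : ℝ) < n := by linarith
  have hK2 : ∀ w ∈ KP (n + 2), 0 ≤ φ w ∧ φ w ≤ 1 := fun w hw => by
    obtain ⟨hl, hs, hc⟩ := RATIO.mem_KP.mp hw
    exact hφ w (by omega) (by omega) hs hc
  have hK4 : ∀ w ∈ KP (n + 2 + 2), 0 ≤ φ w ∧ φ w ≤ 1 := fun w hw => by
    obtain ⟨hl, hs, hc⟩ := RATIO.mem_KP.mp hw
    exact hφ w (by omega) (by omega) hs hc
  have hT1 : ∀ w ∈ KP (n + 2), 0 ≤ T1 φ w ∧ T1 φ w ≤ 2 * ((n + 2 : ℕ) : ℝ) := fun w hw =>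
    T1_bd φ hK4 hw
  constructor
  · obtain ⟨a1, a2⟩ := cnt n φ 1 zero_le_one hK2
    have a3 := rep1 (by omega) φ (fun w hw => (hK2 w hw).1)
    have hs0 : 0 ≤ ∑ w ∈ KP n, T1 φ w := Finset.sum_nonneg fun w hw =>
      Finset.sum_nonneg fun p hp => (hK2 _ (mem_KP_ins hw hp)).1
    rw [one_mul] at a2
    have a4 : |mm φ (n + 2) - ∑ w ∈ KP n, T1 φ w / bt w| ≤
        20000000 / (n : ℝ) ^ 2 * ∑ w ∈ KP n, T1 φ w + (few (n + 2)).card := by
      rw [abs_le] at a3 ⊢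
      constructor <;> linarith [a3.1, a3.2]
    refine a4.trans ?_
    have e1 : 20000000 / (n : ℝ) ^ 2 * ∑ w ∈ KP n, T1 φ w =
        20000000 * ((∑ w ∈ KP n, T1 φ w) / (n : ℝ) ^ 2) := by ring
    have e2 : 0 ≤ (∑ w ∈ KP n, T1 φ w) / (n : ℝ) ^ 2 := by positivity
    have e3 : (0 : ℝ) ≤ (few (n + 2)).card := by positivity
    rw [e1]
    linarith
  · obtain ⟨a1, a2⟩ := cnt (n + 2) φ 1 zero_le_one hK4
    have a3 := rep1 (n := n + 2) (by omega) φ (fun w hw => (hK4 w hw).1)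
    have hχ : ∀ w ∈ KP (n + 2), 0 ≤ T1 φ w * (1 / bt w) ∧ T1 φ w * (1 / bt w) ≤ 4000 := by
      intro w hw
      obtain ⟨h0, h1⟩ := hT1 w hw
      obtain ⟨hl, hs, hc⟩ := RATIO.mem_KP.mp hw
      have h2 := inv_bt_le (w := w) (by omega)
      have h3 := bt_pos (w := w) (by omega)
      rw [hl] at h2
      have h4 : (0 : ℝ) < ((n + 2 : ℕ) : ℝ) := by positivity
      refine ⟨by positivity, ?_⟩
      calc T1 φ w * (1 / bt w) ≤ 2 * ((n + 2 : ℕ) : ℝ) * (2000 / ((n + 2 : ℕ) : ℝ)) :=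
            mul_le_mul h1 h2 (by positivity) (by positivity)
        _ = 4000 := by
            field_simp
            norm_num
    obtain ⟨b1, b2⟩ := cnt n (fun w => T1 φ w * (1 / bt w)) 4000 (by norm_num) hχ
    have b3 := rep2 (n := n) (by omega) (T1 φ) (fun w hw => (hT1 w hw).1)
    obtain ⟨c1, c2⟩ := cnt n (T1 φ) (2 * ((n + 2 : ℕ) : ℝ)) (by positivity) hT1
    have c3 := Sx_le (n := n) (by omega) (T1 φ) (fun w hw => (hT1 w hw).1)
    have e0 : mm (fun w => T1 φ w * (1 / bt w)) (n + 2) = ∑ w ∈ KP (n + 2), T1 φ w / bt w := by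
      unfold mm
      exact Finset.sum_congr rfl fun w _ => by ring
    have e1 : ∑ w ∈ KP (n + 2), T1 φ w = mm (T1 φ) (n + 2) := rfl
    have eT : ∀ w : List Dir, T1 (T1 φ) w = T2 φ w := fun w => rfl
    simp only [eT] at b3 c3
    rw [e0] at b1 b2
    rw [e1] at a3
    set X : ℝ := ∑ w ∈ KP n, T2 φ w with hX
    have hX0 : 0 ≤ X := Finset.sum_nonneg fun w hw =>
      Finset.sum_nonneg fun p hp => (hT1 _ (mem_KP_ins hw hp)).1
    set f2 : ℝ := ((few (n + 2)).card : ℝ) with hf2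
    set f4 : ℝ := ((few (n + 4)).card : ℝ) with hf4
    have hf20 : 0 ≤ f2 := by positivity
    have hf40 : 0 ≤ f4 := by positivity
    have hnn : (0 : ℝ) < ((n + 2 : ℕ) : ℝ) := by positivity
    have hM0 : 0 ≤ mm (T1 φ) (n + 2) := Finset.sum_nonneg fun w hw => (hT1 w hw).1
    have d1 : 20000000 / ((n + 2 : ℕ) : ℝ) ^ 2 * mm (T1 φ) (n + 2) ≤
        40000000000 * (X / (n : ℝ) ^ 3) + 40000000 * f2 := by
      have d2 : mm (T1 φ) (n + 2) ≤ 2000 / (n : ℝ) * X + 2 * ((n + 2 : ℕ) : ℝ) * f2 := by linarith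
      have d3 : 20000000 / ((n + 2 : ℕ) : ℝ) ^ 2 ≤ 20000000 / (n : ℝ) ^ 2 := by
        apply div_le_div_of_nonneg_left (by norm_num) (by positivity)
        push_cast
        nlinarith
      calc 20000000 / ((n + 2 : ℕ) : ℝ) ^ 2 * mm (T1 φ) (n + 2)
          ≤ 20000000 / ((n + 2 : ℕ) : ℝ) ^ 2 * (2000 / (n : ℝ) * X + 2 * ((n + 2 : ℕ) : ℝ) * f2) :=
            mul_le_mul_of_nonneg_left d2 (by positivity)
        _ = 20000000 / ((n + 2 : ℕ) : ℝ) ^ 2 * (2000 / (n : ℝ) * X) +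
            40000000 / ((n + 2 : ℕ) : ℝ) * f2 := by
            field_simp
            ring
        _ ≤ 20000000 / (n : ℝ) ^ 2 * (2000 / (n : ℝ) * X) + 40000000 * f2 := by
            apply add_le_add
            · exact mul_le_mul_of_nonneg_right d3 (by positivity)
            · apply mul_le_mul_of_nonneg_right _ hf20
              rw [div_le_iff₀ hnn]
              push_cast
              linarith
        _ = 40000000000 * (X / (n : ℝ) ^ 3) + 40000000 * f2 := by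
            field_simp
            ring
    have e4 : mm φ (n + 4) = mm φ (n + 2 + 2) := rfl
    have e6 : 80000000000 / (n : ℝ) ^ 3 * X = 80000000000 * (X / (n : ℝ) ^ 3) := by ring
    rw [one_mul] at a2
    rw [e6] at b3
    rw [e4]
    have hXn : 0 ≤ X / (n : ℝ) ^ 3 := by positivity
    rw [abs_le] at a3 b3 ⊢
    constructor <;> linarith [a3.1, a3.2, b3.1, b3.2]

end

end Pool.Agent.Q251.PT.TR2
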